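import Pool.Agent.Lib.MP_b5021c_nt.IfaceE2
import Pool.Agent.Lib.MP_b5021c_nt.B.H71.I1c

/-!
# Board b5, row E2_TPF: a closed element with small factors only gives a terminal pair
-/

set_option autoImplicit false

namespace Pool.Agent.B5.H38.Tpf

open scoped LaurentPolynomial
open AddMonoidAlgebra
open Pool.Agent.B5.H71

section Gen

variable {O : Type} [CommRing O] {L : Type} [AddCommGroup L]

theorem supp_mul_mem (N : Submodule ℤ L) (G H : AO O L) (hG : ∀ a ∈ supp G, a ∈ N)
    (hH : ∀ a ∈ supp H, a ∈ N) : ∀ a ∈ supp (G * H), a ∈ N := by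
  classical
  intro a ha
  have h : a ∈ (G * H).coeff.support := Finsupp.mem_support_iff.mpr ha
  obtain ⟨x, hx, y, hy, hxy⟩ :=
    Finset.mem_add.mp (AddMonoidAlgebra.support_coeff_mul_subset _ _ h)
  rw [← hxy]
  exact N.add_mem (hG x (Finsupp.mem_support_iff.mp hx)) (hH y (Finsupp.mem_support_iff.mp hy))

theorem supp_cst_mem (N : Submodule ℤ L) (c : RO O) : ∀ a ∈ supp (cst c : AO O L), a ∈ N := by
  intro a ha
  have h1 : a = 0 := by
    by_contra h2
    apply ha
    rw [cst, coeff_single, Finsupp.single_eq_of_ne h2]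
  rw [h1]
  exact N.zero_mem

theorem supp_prod_mem (N : Submodule ℤ L) {n : ℕ} (s : Finset (Fin n)) (G : Fin n → AO O L)
    (hG : ∀ i, ∀ a ∈ supp (G i), a ∈ N) : ∀ a ∈ supp (∏ i ∈ s, G i), a ∈ N := by
  classical
  induction s using Finset.induction_on with
  | empty =>
    rw [Finset.prod_empty]
    exact supp_cst_mem N 1
  | insert i s hi ih =>
    rw [Finset.prod_insert hi]
    exact supp_mul_mem N _ _ (hG i) ih

theorem sfa_coeff_self (b : L) (hb : b ≠ 0) (e : (RO O)ˣ) :
    (1 - single b ((e⁻¹ : (RO O)ˣ) : RO O) : AO O L).coeff b = -((e⁻¹ : (RO O)ˣ) : RO O) := by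
  rw [coeff_sub, Finsupp.sub_apply, coeff_single, Finsupp.single_eq_same, one_def,
    coeff_single, Finsupp.single_eq_of_ne hb, zero_sub]

theorem supp_sfa_mem (N : Submodule ℤ L) (b : L) (hb : b ∈ N) (e : (RO O)ˣ) :
    ∀ a ∈ supp (1 - single b ((e⁻¹ : (RO O)ˣ) : RO O) : AO O L), a ∈ N := by
  intro a ha
  by_cases h1 : a = b
  · rw [h1]; exact hb
  by_cases h2 : a = 0
  · rw [h2]; exact N.zero_mem
  exfalso
  apply ha
  rw [coeff_sub, Finsupp.sub_apply, coeff_single, Finsupp.single_eq_of_ne h1, one_def,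
    coeff_single, Finsupp.single_eq_of_ne h2, sub_zero]

/-- The closed element is `X + eta Y`. -/
theorem cl_split (k : L →+ ℤ) (S : L) (h : k S = 1) (eta : (RO O)ˣ) (D : AO O L)
    (hD : ∀ a ∈ supp D, k a = 0 ∨ k a = 1) :
    cl k S h eta D = res (Ker k) D + cst (eta : RO O) * res (Ker k) (single (-S) 1 * D) := by
  have hdec := decomp k S h D hD
  generalize res (Ker k) D = X at hdec ⊢
  generalize res (Ker k) (single (-S) 1 * D) = Y at hdec ⊢
  conv_lhs => rw [hdec]
  rw [map_add, map_mul, cl_em, cl_em, cl_single, prj_self, h, zpow_one, one_mul]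
  rfl

end Gen

/-- Row TPF. -/
theorem tpf (hTpu : TpuS) (hTpv : TpvS) (hG0 : G0S) (hE2 : E2S) (hRk : RkS) (hUA : UnitAS) :
    TpfS := by
  intro O _ _ _ _ P L _ _ _ _ _ phi D S i0 eta h c n G fd b f e hu hGi hdual
  obtain ⟨hSD, hS0, lam, hS, hp⟩ := fd.cc.ray
  obtain ⟨-, -, hV00, -, -, hposV⟩ := hG0 O P L phi D S i0 eta h fd.cc
  have hpos := hposV lam hS hp
  have hbin : ∀ a ∈ supp D, co phi i0 a = 0 ∨ co phi i0 a = 1 := fun a ha => fd.cc.dd.bin a ha i0
  have hb0 : ∀ i, b i ≠ 0 := by
    intro i h1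
    have h2 := hdual i i
    rw [h1, map_zero, if_pos rfl] at h2
    exact zero_ne_one h2
  -- the closed element
  have hV : cl (co phi i0) S h eta D = den (D.coeff 0 + (eta : RO O) * D.coeff S) b e := by
    rw [fd.eq, den, fd.v00, cst_mul, mul_assoc]
    congr 1
    have h1 : (cst (∏ i, (G i).coeff 0) : AO O (Ker (co phi i0))) = ∏ i, cst ((G i).coeff 0) := by
      have h2 : ∀ d : RO O, (cst d : AO O (Ker (co phi i0))) = singleZeroRingHom d := fun d => rfl
      rw [h2, map_prod]
      rfl
    rw [h1, ← Finset.prod_mul_distrib]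
    exact Finset.prod_congr rfl fun i _ => hGi i
  have hbs : ∀ i, b i ∈ supp (G i) := by
    intro i
    change (G i).coeff (b i) ≠ 0
    rw [hGi i, cst_mul_coeff, sfa, sfa_coeff_self (b i) (hb0 i) (e i)]
    exact mul_ne_zero (hu i).ne_zero (neg_ne_zero.mpr (Units.ne_zero _))
  refine ⟨lam.comp (incl (Ker (co phi i0))), ⟨fd.cc.v0, hdual, ?_, ?_, ?_, ?_, ?_⟩, ?_⟩
  · intro i
    exact (fd.full i _ hpos).2.1 (b i) (Finsupp.mem_support_iff.mpr (hbs i)) (hb0 i)
  · intro a ha ha0
    have h1 : (a : L) ∈ supp D := by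
      have := Finsupp.mem_support_iff.mp ha
      exact this
    refine hp (a : L) h1 (fun h2 => ha0 (Subtype.ext h2)) ?_
    intro h2
    have h3 : co phi i0 (a : L) = 0 := a.2
    rw [h2, h] at h3
    exact one_ne_zero h3
  · have h1 := hTpu O P L phi D S i0 eta h fd.cc
    rw [hV] at h1
    rw [h1, Nat.cast_one, one_mul]
  · intro z _ u s hs
    have h1 := hTpv O P L phi D S i0 eta h fd.cc lam hS hp z
      ((hE2 O P L phi D fd.cc.dd fd.cc.two).1 z) u s hs
    rw [hV] at h1
    exact h1
  · intro i hi hX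
    have hV0 : cl (f i) (b i) hi (e i) (cl (co phi i0) S h eta D) = 0 := by
      rw [hV, den, map_mul, map_prod]
      have h1 : cl (f i) (b i) hi (e i) (sfa (b i) (e i)) = 0 := cl_factor _ _ _ _
      rw [Finset.prod_eq_zero (Finset.mem_univ i) h1, mul_zero]
    have hbL : ((b i : Ker (co phi i0)) : L) ≠ 0 := fun h1 => hb0 i (Subtype.ext h1)
    have hPD := dvd_of_closed (co phi i0) S h eta D hbin (f i) (b i) hi (e i) hX hV0
    have h3 : rk (supp D) = Module.finrank ℤ L := fd.cc.dd.spn
    have h4 := fd.cc.two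
    have h5 := rank_le_one hUA D (b i : L) hbL (e i) fd.cc.dd.irr fd.cc.dd.st.1 hPD
    omega
  · -- the rank
    obtain ⟨-, -, -, r4, -, r6, r7, -, r9, -⟩ := hRk L L
    obtain ⟨-, -, -, q4, -, -, -, -, -, -⟩ := hRk (Ker (co phi i0)) L
    set T : Set (Ker (co phi i0)) := supp (res (Ker (co phi i0)) D) ∪ Set.range b with hT
    have hinj : Function.Injective (incl (Ker (co phi i0))) := Subtype.coe_injective
    have h1 : rk (supp D) ≤ rk ({S} ∪ (incl (Ker (co phi i0))) '' T) := by
      apply r9
      intro a ha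
      refine ⟨1, one_ne_zero, ?_⟩
      rw [one_smul]
      have hT1 : ∀ x : Ker (co phi i0), x ∈ Submodule.span ℤ T →
          (x : L) ∈ Submodule.span ℤ ({S} ∪ (incl (Ker (co phi i0))) '' T) := by
        intro x hx
        have h2 : Submodule.map (Ker (co phi i0)).subtype (Submodule.span ℤ T) ≤
            Submodule.span ℤ ({S} ∪ (incl (Ker (co phi i0))) '' T) := by
          rw [Submodule.map_span]
          apply Submodule.span_mono
          exact Set.subset_union_of_subset_right (le_refl _) _
        exact h2 ⟨x, hx, rfl⟩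
      rcases hbin a ha with h0 | h0
      · have h2 : (⟨a, h0⟩ : Ker (co phi i0)) ∈ T := Or.inl ha
        exact hT1 ⟨a, h0⟩ (Submodule.subset_span h2)
      · have hk : -S + a ∈ Ker (co phi i0) := by
          rw [mem_Ker, map_add, map_neg, h, h0]
          omega
        have hx : (⟨-S + a, hk⟩ : Ker (co phi i0)) ∈ Submodule.span ℤ T := by
          by_cases hxX : (⟨-S + a, hk⟩ : Ker (co phi i0)) ∈ supp (res (Ker (co phi i0)) D)
          · exact Submodule.subset_span (Or.inl hxX)
          · have hxV : (⟨-S + a, hk⟩ : Ker (co phi i0)) ∈ supp (cl (co phi i0) S h eta D) := by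
              intro h3
              rw [cl_split (co phi i0) S h eta D hbin, coeff_add, Finsupp.add_apply,
                cst_mul_coeff, res_coeff (Ker (co phi i0)) (single (-S) 1 * D),
                coeff_single_mul_apply, one_mul, neg_neg] at h3
              have h4 : (res (Ker (co phi i0)) D).coeff (⟨-S + a, hk⟩ : Ker (co phi i0)) = 0 := by
                by_contra h5
                exact hxX h5
              have h6 : S + (((⟨-S + a, hk⟩ : Ker (co phi i0))) : L) = a := by
                change S + (-S + a) = a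
                abel
              rw [h4, zero_add, h6] at h3
              exact mul_ne_zero (Units.ne_zero eta) ha h3
            rw [hV, den] at hxV
            have h5 : Submodule.span ℤ (Set.range b) ≤ Submodule.span ℤ T :=
              Submodule.span_mono Set.subset_union_right
            refine h5 (supp_mul_mem _ _ _ (supp_cst_mem _ _) (supp_prod_mem _ _ _ ?_) _ hxV)
            intro i
            exact supp_sfa_mem _ (b i) (Submodule.subset_span (Set.mem_range_self i)) (e i)
        have h2 := hT1 _ hx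
        have h3 : S ∈ Submodule.span ℤ ({S} ∪ (incl (Ker (co phi i0))) '' T) :=
          Submodule.subset_span (Or.inl rfl)
        have h4 := Submodule.add_mem _ h3 h2
        have h5 : S + (((⟨-S + a, hk⟩ : Ker (co phi i0))) : L) = a := by
          change S + (-S + a) = a
          abel
        rwa [h5] at h4
    have h2 := r6 {S} ((incl (Ker (co phi i0))) '' T)
    have h3 := r7 S hS0
    have h4 := q4 (incl (Ker (co phi i0))) T hinj
    have h5 : rk (supp D) = Module.finrank ℤ L := fd.cc.dd.spn
    omega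

end Pool.Agent.B5.H38.Tpf
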